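import Pool.Agent.TH125.Nod.Fft

/-!
# The first fundamental theorem (II): contractions and the induction
-/

set_option linter.unusedSectionVars false

open Finset Function

namespace Pool.Agent.TH125.Nod

universe u v

variable {K : Type u} [Field K] {B : Type} [Fintype B] [DecidableEq B] {ι : Type} [DecidableEq ι]
  {M : Type v} [AddCommGroup M] [Module K M]

/-- the indices of a block -/
def blk (κ : B → ι) (i : ι) : Finset B := univ.filter fun b => κ b = i

theorem mem_blk {κ : B → ι} {i : ι} {b : B} : b ∈ blk κ i ↔ κ b = i := by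
  simp [blk]

/-- extension of an index function by two values -/
def ext2 {S : Type} [DecidableEq S] (a b : S) (p q : B) (J : {x // x ≠ a ∧ x ≠ b} → B) : S → B :=
  fun x => if hx : x ≠ a ∧ x ≠ b then J ⟨x, hx⟩ else if x = a then p else q

/-- contraction of two variables with the inverse matrix -/
def con {S : Type} [DecidableEq S] (κ : B → ι) (R : Matrix B B K) (i : ι) (a b : S)
    (f : (S → B) → M) : ({x // x ≠ a ∧ x ≠ b} → B) → M :=
  fun J => ∑ p ∈ blk κ i, ∑ q ∈ blk κ i, R p q • f (ext2 a b p q J)

section
variable {S : Type} [Fintype S] [DecidableEq S] {a b : S}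

theorem ext2_a (p q : B) (J : {x // x ≠ a ∧ x ≠ b} → B) : ext2 a b p q J a = p := by
  unfold ext2
  rw [dif_neg (fun h => h.1 rfl), if_pos rfl]

theorem ext2_b (hab : a ≠ b) (p q : B) (J : {x // x ≠ a ∧ x ≠ b} → B) : ext2 a b p q J b = q := by
  unfold ext2
  rw [dif_neg (fun h => h.2 rfl), if_neg (Ne.symm hab)]

theorem ext2_val (p q : B) (J : {x // x ≠ a ∧ x ≠ b} → B) (x : {x // x ≠ a ∧ x ≠ b}) :
    ext2 a b p q J x.1 = J x := by
  unfold ext2
  rw [dif_pos x.2]

theorem update_ext2_a (p q p' : B) (J : {x // x ≠ a ∧ x ≠ b} → B) :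
    update (ext2 a b p q J) a p' = ext2 a b p' q J := by
  funext x
  by_cases h1 : x = a
  · subst h1
    rw [update_self, ext2_a]
  · rw [update_of_ne h1]
    unfold ext2
    by_cases h2 : x ≠ a ∧ x ≠ b
    · rw [dif_pos h2, dif_pos h2]
    · rw [dif_neg h2, dif_neg h2, if_neg h1, if_neg h1]

theorem update_ext2_b (hab : a ≠ b) (p q q' : B) (J : {x // x ≠ a ∧ x ≠ b} → B) :
    update (ext2 a b p q J) b q' = ext2 a b p q' J := by
  funext x
  by_cases h1 : x = b
  · subst h1
    rw [update_self, ext2_b hab]
  · rw [update_of_ne h1]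
    unfold ext2
    by_cases h2 : x ≠ a ∧ x ≠ b
    · rw [dif_pos h2, dif_pos h2]
    · rw [dif_neg h2, dif_neg h2]
      by_cases h3 : x = a
      · rw [if_pos h3, if_pos h3]
      · exact absurd ⟨h3, h1⟩ h2

theorem update_ext2_val (p q : B) (J : {x // x ≠ a ∧ x ≠ b} → B) (x : {x // x ≠ a ∧ x ≠ b})
    (v : B) : update (ext2 a b p q J) x.1 v = ext2 a b p q (update J x v) := by
  funext y
  by_cases h1 : y = x.1
  · subst h1
    rw [update_self, ext2_val, update_self]
  · rw [update_of_ne h1]
    unfold ext2
    by_cases h2 : y ≠ a ∧ y ≠ b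
    · rw [dif_pos h2, dif_pos h2, update_of_ne]
      intro h
      exact h1 (congrArg Subtype.val h)
    · rw [dif_neg h2, dif_neg h2]

theorem sum_split (hab : a ≠ b) (F : S → M) :
    ∑ x, F x = F a + F b + ∑ x : {x // x ≠ a ∧ x ≠ b}, F x.1 := by
  rw [← Finset.add_sum_erase univ F (Finset.mem_univ a),
    ← Finset.add_sum_erase (univ.erase a) F (Finset.mem_erase.2 ⟨Ne.symm hab, Finset.mem_univ b⟩),
    add_assoc]
  congr 2
  rw [Finset.sum_subtype]
  intro x
  simp only [Finset.mem_erase, Finset.mem_univ, and_true]
  exact and_comm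

end

variable {κ : B → ι} {Q R : Matrix B B K} {s : ι → ℤ} (hs : ∀ i, s i = 1 ∨ s i = -1)
  (hQb : ∀ a b, κ a ≠ κ b → Q a b = 0) (hQs : ∀ a b, Q a b = ((s (κ a) : ℤ) : K) * Q b a)
  (hQR : Q * R = 1)

include hQb hQR in
theorem sum_QR {i : ι} {v : B} (hv : κ v = i) (u : B) :
    ∑ p ∈ blk κ i, Q v p * R p u = if v = u then 1 else 0 := by
  have h := congrFun (congrFun hQR v) u
  rw [Matrix.mul_apply, Matrix.one_apply] at h
  rw [← h]
  apply Finset.sum_subset (Finset.subset_univ _)
  intro x _ hx
  rw [mem_blk] at hx
  rw [hQb v x (by rw [hv]; exact Ne.symm hx), zero_mul]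

include hQb hQR in
theorem sum_RQ {i : ι} {m : B} (hm : κ m = i) (p : B) :
    ∑ u ∈ blk κ i, R p u * Q u m = if p = m then 1 else 0 := by
  have hRQ : R * Q = 1 := mul_eq_one_comm.1 hQR
  have h := congrFun (congrFun hRQ p) m
  rw [Matrix.mul_apply, Matrix.one_apply] at h
  rw [← h]
  apply Finset.sum_subset (Finset.subset_univ _)
  intro x _ hx
  rw [mem_blk] at hx
  rw [hQb x m (by rw [hm]; exact hx), mul_zero]

include hs in
theorem sq_s (i : ι) : ((s i : ℤ) : K) * ((s i : ℤ) : K) = 1 := by
  rcases hs i with h | h <;> rw [h] <;> norm_num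

section
variable {S : Type} [Fintype S] [DecidableEq S] {c : S → ι}

include hQb hQR hs in
/-- the Casimir identity -/
theorem cas {f : (S → B) → M} (hf : Inv κ Q (fun i => ((s i : ℤ) : K)) f) {J : S → B}
    (hJ : ∀ j, κ (J j) = c j) {i : ι} {a : S} (ha : c a = i) :
    ((((blk κ i).card : ℤ) - s i : ℤ) : K) • f J +
      ∑ b ∈ (univ.filter fun j => c j = i).erase a, f (fun j => J (Equiv.swap a b j)) =
    ((s i : ℤ) : K) • ∑ b ∈ (univ.filter fun j => c j = i).erase a,
      Q (J a) (J b) • con κ R i a b f (fun x => J x.1) := by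
  set ε : K := ((s i : ℤ) : K) with hε
  have hεε : ε * ε = 1 := sq_s hs i
  have hJa : κ (J a) = i := by rw [hJ, ha]
  -- the contribution of each variable
  let G : S → M := fun j => ∑ p ∈ blk κ i, ∑ u ∈ blk κ i, R p u •
    (Q (J a) (update J a p j) • f (update (update J a p) j u) -
      (ε * Q u (update J a p j)) • f (update (update J a p) j (J a)))
  have hG : ∑ j, G j = 0 := by
    show ∑ j, ∑ p ∈ blk κ i, ∑ u ∈ blk κ i, _ = 0
    rw [Finset.sum_comm]
    refine Finset.sum_eq_zero fun p _ => ?_
    rw [Finset.sum_comm]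
    refine Finset.sum_eq_zero fun u hu => ?_
    rw [mem_blk] at hu
    rw [← Finset.smul_sum]
    have := hf u (J a) (by rw [hu, hJa]) (update J a p)
    simp only [hu] at this
    rw [this, smul_zero]
  have hGa : G a = f J - (ε * ((blk κ i).card : K)) • f J := by
    show ∑ p ∈ blk κ i, ∑ u ∈ blk κ i, _ = _
    simp only [update_self, update_idem, update_eq_self, smul_sub, Finset.sum_sub_distrib,
      smul_smul]
    congr 1
    · rw [Finset.sum_comm]
      have h1 : ∀ u ∈ blk κ i, ∑ p ∈ blk κ i, (R p u * Q (J a) p) • f (update J a u) =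
          (if J a = u then (1 : K) else 0) • f (update J a u) := by
        intro u _
        rw [← Finset.sum_smul, ← sum_QR hQb hQR hJa u]
        congr 1
        exact Finset.sum_congr rfl fun p _ => mul_comm _ _
      rw [Finset.sum_congr rfl h1]
      simp only [ite_smul, one_smul, zero_smul]
      rw [Finset.sum_ite_eq, if_pos (mem_blk.2 hJa), update_eq_self]
    · simp only [← Finset.sum_smul]
      congr 1
      have h1 : ∀ p ∈ blk κ i, ∑ u ∈ blk κ i, R p u * (ε * Q u p) = ε := by
        intro p hp
        rw [mem_blk] at hp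
        have := sum_RQ hQb hQR hp p
        rw [if_pos rfl] at this
        calc ∑ u ∈ blk κ i, R p u * (ε * Q u p) = ε * ∑ u ∈ blk κ i, R p u * Q u p := by
              rw [Finset.mul_sum]
              exact Finset.sum_congr rfl fun u _ => by ring
          _ = ε := by rw [this, mul_one]
      rw [Finset.sum_congr rfl h1, Finset.sum_const, nsmul_eq_mul, mul_comm]
  have hG0 : ∀ j, j ≠ a → c j ≠ i → G j = 0 := by
    intro j hja hji
    refine Finset.sum_eq_zero fun p _ => Finset.sum_eq_zero fun u hu => ?_
    rw [mem_blk] at hu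
    rw [update_of_ne hja, hQb (J a) (J j) (by rw [hJa, hJ]; exact Ne.symm hji),
      hQb u (J j) (by rw [hu, hJ]; exact Ne.symm hji)]
    simp
  have hG1 : ∀ j, j ≠ a → c j = i → G j = Q (J a) (J j) • con κ R i a j f (fun x => J x.1) -
      ε • f (fun k => J (Equiv.swap a j k)) := by
    intro j hja hji
    have hJj : κ (J j) = i := by rw [hJ, hji]
    have hup : ∀ p u, update (update J a p) j u = ext2 a j p u (fun x => J x.1) := by
      intro p u
      funext x
      by_cases h1 : x = j
      · subst h1
        rw [update_self, ext2_b (Ne.symm hja)]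
      rw [update_of_ne h1]
      by_cases h2 : x = a
      · subst h2
        rw [update_self, ext2_a]
      rw [update_of_ne h2]
      unfold ext2
      rw [dif_pos ⟨h2, h1⟩]
    show ∑ p ∈ blk κ i, ∑ u ∈ blk κ i, _ = _
    simp only [update_of_ne hja, smul_sub, Finset.sum_sub_distrib, smul_smul]
    congr 1
    · unfold con
      rw [Finset.smul_sum]
      refine Finset.sum_congr rfl fun p _ => ?_
      rw [Finset.smul_sum]
      refine Finset.sum_congr rfl fun u _ => ?_
      rw [hup, smul_smul, mul_comm]
    · have h1 : ∀ p ∈ blk κ i, ∑ u ∈ blk κ i, (R p u * (ε * Q u (J j))) •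
          f (update (update J a p) j (J a)) =
          (if p = J j then ε else 0) • f (update (update J a p) j (J a)) := by
        intro p _
        rw [← Finset.sum_smul]
        congr 1
        have := sum_RQ hQb hQR hJj p
        calc ∑ u ∈ blk κ i, R p u * (ε * Q u (J j)) = ε * ∑ u ∈ blk κ i, R p u * Q u (J j) := by
              rw [Finset.mul_sum]
              exact Finset.sum_congr rfl fun u _ => by ring
          _ = _ := by rw [this]; split_ifs <;> simp
      rw [Finset.sum_congr rfl h1]
      simp only [ite_smul, zero_smul]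
      rw [Finset.sum_ite_eq', if_pos (mem_blk.2 hJj)]
      congr 2
      funext x
      by_cases h1 : x = j
      · subst h1
        rw [update_self, Equiv.swap_apply_right]
      rw [update_of_ne h1]
      by_cases h2 : x = a
      · subst h2
        rw [update_self, Equiv.swap_apply_left]
      rw [update_of_ne h2, Equiv.swap_apply_of_ne_of_ne h2 h1]
  have hsum : ∑ j, G j = G a + ∑ j ∈ (univ.filter fun j => c j = i).erase a, G j := by
    rw [← Finset.add_sum_erase univ G (Finset.mem_univ a)]
    congr 1
    symm
    apply Finset.sum_subset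
    · intro x hx
      rw [Finset.mem_erase] at hx ⊢
      exact ⟨hx.1, Finset.mem_univ _⟩
    · intro x hx hx'
      rw [Finset.mem_erase] at hx hx'
      apply hG0 x hx.1
      intro h
      exact hx' ⟨hx.1, Finset.mem_filter.2 ⟨Finset.mem_univ _, h⟩⟩
  rw [hG, hGa] at hsum
  have h2 : ∑ j ∈ (univ.filter fun j => c j = i).erase a, G j =
      ∑ j ∈ (univ.filter fun j => c j = i).erase a,
        Q (J a) (J j) • con κ R i a j f (fun x => J x.1) -
      ε • ∑ j ∈ (univ.filter fun j => c j = i).erase a, f (fun k => J (Equiv.swap a j k)) := by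
    rw [Finset.smul_sum, ← Finset.sum_sub_distrib]
    refine Finset.sum_congr rfl fun j hj => ?_
    rw [Finset.mem_erase, Finset.mem_filter] at hj
    exact hG1 j hj.1 hj.2.2
  rw [h2] at hsum
  set X := ∑ j ∈ (univ.filter fun j => c j = i).erase a,
        Q (J a) (J j) • con κ R i a j f (fun x => J x.1) with hX
  set Y := ∑ j ∈ (univ.filter fun j => c j = i).erase a, f (fun k => J (Equiv.swap a j k)) with hY
  have h3 : ε • X = ε • (ε • Y) - ε • (f J - (ε * ((blk κ i).card : K)) • f J) := by
    rw [← smul_sub]
    congr 1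
    have h4 : X = ε • Y - (f J - (ε * ((blk κ i).card : K)) • f J) +
        (f J - (ε * ((blk κ i).card : K)) • f J + (X - ε • Y)) := by abel
    rw [h4, ← hsum, add_zero]
  rw [h3]
  push_cast
  rw [← hε, smul_smul, hεε, one_smul, smul_sub, smul_smul, ← mul_assoc, hεε, one_mul, sub_smul]
  abel

include hs hQb hQs hQR in
/-- contractions of invariant forms are invariant -/
theorem inv_con {f : (S → B) → M} (hf : Inv κ Q (fun i => ((s i : ℤ) : K)) f) {i : ι} {a b : S}
    (hab : a ≠ b) : Inv κ Q (fun i => ((s i : ℤ) : K)) (con κ R i a b f) := by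
  intro u v huv J
  set ε : K := ((s (κ u) : ℤ) : K) with hε
  have key : ∀ p q, ∑ x : {x // x ≠ a ∧ x ≠ b}, (Q v (J x) • f (ext2 a b p q (update J x u)) -
      (ε * Q u (J x)) • f (ext2 a b p q (update J x v))) =
      -(Q v p • f (ext2 a b u q J) - (ε * Q u p) • f (ext2 a b v q J)) -
      (Q v q • f (ext2 a b p u J) - (ε * Q u q) • f (ext2 a b p v J)) := by
    intro p q
    have h1 := hf u v huv (ext2 a b p q J)
    rw [sum_split hab] at h1
    simp only [ext2_a, ext2_b hab, ext2_val, update_ext2_a, update_ext2_b hab,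
      update_ext2_val] at h1
    rw [← sub_eq_zero, ← h1]
    abel
  have hlhs : ∑ j, (Q v (J j) • con κ R i a b f (update J j u) -
      (ε * Q u (J j)) • con κ R i a b f (update J j v)) =
      ∑ p ∈ blk κ i, ∑ q ∈ blk κ i, R p q •
        (-(Q v p • f (ext2 a b u q J) - (ε * Q u p) • f (ext2 a b v q J)) -
      (Q v q • f (ext2 a b p u J) - (ε * Q u q) • f (ext2 a b p v J))) := by
    simp only [← key]
    unfold con
    simp only [Finset.smul_sum, smul_smul, smul_sub]
    simp only [← Finset.sum_sub_distrib]
    rw [Finset.sum_comm]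
    refine Finset.sum_congr rfl fun p _ => ?_
    rw [Finset.sum_comm]
    refine Finset.sum_congr rfl fun q _ => ?_
    refine Finset.sum_congr rfl fun j _ => ?_
    rw [mul_comm (Q v (J j)), mul_comm (ε * Q u (J j))]
  show ∑ j, (Q v (J j) • con κ R i a b f (update J j u) -
      (ε * Q u (J j)) • con κ R i a b f (update J j v)) = 0
  rw [hlhs]
  by_cases hi : κ v = i
  · have hu : κ u = i := by rw [huv, hi]
    have hεε : ε * ε = 1 := sq_s hs (κ u)
    have hvs : ∀ q, Q v q = ε * Q q v := by
      intro q
      rw [hQs v q, hε, huv]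
    have hus : ∀ q, Q u q = ε * Q q u := by
      intro q
      rw [hQs u q]
    have e1 : ∑ p ∈ blk κ i, ∑ q ∈ blk κ i, (R p q * Q v p) • f (ext2 a b u q J) =
        f (ext2 a b u v J) := by
      rw [Finset.sum_comm]
      have h1 : ∀ q ∈ blk κ i, ∑ p ∈ blk κ i, (R p q * Q v p) • f (ext2 a b u q J) =
          (if v = q then (1 : K) else 0) • f (ext2 a b u q J) := by
        intro q _
        rw [← Finset.sum_smul, ← sum_QR hQb hQR hi q]
        congr 1
        exact Finset.sum_congr rfl fun p _ => mul_comm _ _
      rw [Finset.sum_congr rfl h1]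
      simp only [ite_smul, one_smul, zero_smul]
      rw [Finset.sum_ite_eq, if_pos (mem_blk.2 hi)]
    have e2 : ∑ p ∈ blk κ i, ∑ q ∈ blk κ i, (R p q * (ε * Q u p)) • f (ext2 a b v q J) =
        ε • f (ext2 a b v u J) := by
      rw [Finset.sum_comm]
      have h1 : ∀ q ∈ blk κ i, ∑ p ∈ blk κ i, (R p q * (ε * Q u p)) • f (ext2 a b v q J) =
          (if u = q then ε else 0) • f (ext2 a b v q J) := by
        intro q _
        rw [← Finset.sum_smul]
        congr 1
        calc ∑ p ∈ blk κ i, R p q * (ε * Q u p) = ε * ∑ p ∈ blk κ i, Q u p * R p q := by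
              rw [Finset.mul_sum]
              exact Finset.sum_congr rfl fun p _ => by ring
          _ = _ := by rw [sum_QR hQb hQR hu q]; split_ifs <;> simp
      rw [Finset.sum_congr rfl h1]
      simp only [ite_smul, zero_smul]
      rw [Finset.sum_ite_eq, if_pos (mem_blk.2 hu)]
    have e3 : ∑ p ∈ blk κ i, ∑ q ∈ blk κ i, (R p q * Q v q) • f (ext2 a b p u J) =
        ε • f (ext2 a b v u J) := by
      have h1 : ∀ p ∈ blk κ i, ∑ q ∈ blk κ i, (R p q * Q v q) • f (ext2 a b p u J) =
          (if p = v then ε else 0) • f (ext2 a b p u J) := by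
        intro p _
        rw [← Finset.sum_smul]
        congr 1
        calc ∑ q ∈ blk κ i, R p q * Q v q = ε * ∑ q ∈ blk κ i, R p q * Q q v := by
              rw [Finset.mul_sum]
              exact Finset.sum_congr rfl fun q _ => by rw [hvs q]; ring
          _ = _ := by rw [sum_RQ hQb hQR hi p]; split_ifs <;> simp
      rw [Finset.sum_congr rfl h1]
      simp only [ite_smul, zero_smul]
      rw [Finset.sum_ite_eq', if_pos (mem_blk.2 hi)]
    have e4 : ∑ p ∈ blk κ i, ∑ q ∈ blk κ i, (R p q * (ε * Q u q)) • f (ext2 a b p v J) =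
        f (ext2 a b u v J) := by
      have h1 : ∀ p ∈ blk κ i, ∑ q ∈ blk κ i, (R p q * (ε * Q u q)) • f (ext2 a b p v J) =
          (if p = u then (1 : K) else 0) • f (ext2 a b p v J) := by
        intro p _
        rw [← Finset.sum_smul, ← sum_RQ hQb hQR hu p]
        congr 1
        refine Finset.sum_congr rfl fun q _ => ?_
        rw [hus q, ← mul_assoc ε, hεε, one_mul]
      rw [Finset.sum_congr rfl h1]
      simp only [ite_smul, one_smul, zero_smul]
      rw [Finset.sum_ite_eq', if_pos (mem_blk.2 hu)]
    simp only [smul_sub, smul_neg, smul_smul, Finset.sum_sub_distrib, Finset.sum_neg_distrib,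
      e1, e2, e3, e4]
    abel
  · refine Finset.sum_eq_zero fun p hp => Finset.sum_eq_zero fun q hq => ?_
    rw [mem_blk] at hp hq
    have hu : κ u ≠ i := by rw [huv]; exact hi
    rw [hQb v p (by rw [hp]; exact hi), hQb u p (by rw [hp]; exact hu),
      hQb v q (by rw [hq]; exact hi), hQb u q (by rw [hq]; exact hu)]
    simp

theorem sup_con {f : (S → B) → M} (hf : Sup κ c f) {i : ι} {a b : S} (R : Matrix B B K) :
    Sup κ (fun x : {x // x ≠ a ∧ x ≠ b} => c x.1) (con κ R i a b f) := by
  intro J hJ
  unfold con
  refine Finset.sum_eq_zero fun p _ => Finset.sum_eq_zero fun q _ => ?_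
  rw [hf, smul_zero]
  intro h
  apply hJ
  intro x
  have := h x.1
  rwa [ext2_val] at this

open Classical in
/-- multiplication with the form on two variables -/
theorem mul_Gen (κ : B → ι) (Q : Matrix B B K) (c : S → ι) {a b : S} (hab : a ≠ b)
    {g : ({x // x ≠ a ∧ x ≠ b} → B) → M}
    (hg : g ∈ Gen κ Q (fun x : {x // x ≠ a ∧ x ≠ b} => c x.1)) :
    (fun J : S → B => if ∀ j, κ (J j) = c j then Q (J a) (J b) • g (fun x => J x.1) else 0) ∈
      Gen κ Q c := by
  unfold Gen at hg
  induction hg using Submodule.span_induction with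
  | mem g hg =>
    obtain ⟨m, e, w, rfl⟩ := hg
    let F : Fin (m + 1) × Fin 2 → S := fun p =>
      Fin.cases (motive := fun _ => S) (if p.2 = 0 then a else b) (fun l => (e (l, p.2)).1) p.1
    have hF0 : F (0, 0) = a := rfl
    have hF1 : F (0, 1) = b := rfl
    have hFs : ∀ l t, F (Fin.succ l, t) = (e (l, t)).1 := fun l t => rfl
    have hbij : Function.Bijective F := by
      constructor
      · rintro ⟨l, t⟩ ⟨l', t'⟩ h
        induction l using Fin.cases with
        | zero =>
          induction l' using Fin.cases with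
          | zero =>
            fin_cases t <;> fin_cases t'
            · rfl
            · exact absurd h hab
            · exact absurd h (Ne.symm hab)
            · rfl
          | succ l' =>
            rw [hFs] at h
            have := (e (l', t')).2
            fin_cases t
            · exact absurd h.symm this.1
            · exact absurd h.symm this.2
        | succ l =>
          induction l' using Fin.cases with
          | zero =>
            rw [hFs] at h
            have := (e (l, t)).2
            fin_cases t'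
            · exact absurd h this.1
            · exact absurd h this.2
          | succ l' =>
            rw [hFs, hFs] at h
            have h1 := e.injective (Subtype.ext h)
            rw [Prod.mk.injEq] at h1 ⊢
            exact ⟨congrArg Fin.succ h1.1, h1.2⟩
      · intro x
        by_cases h1 : x = a
        · exact ⟨(0, 0), by rw [hF0, h1]⟩
        by_cases h2 : x = b
        · exact ⟨(0, 1), by rw [hF1, h2]⟩
        refine ⟨(Fin.succ (e.symm ⟨x, h1, h2⟩).1, (e.symm ⟨x, h1, h2⟩).2), ?_⟩
        rw [hFs, Prod.mk.eta, Equiv.apply_symm_apply]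
    refine Submodule.subset_span ⟨m + 1, Equiv.ofBijective F hbij, w, ?_⟩
    funext J
    unfold gen
    by_cases hJ : ∀ j, κ (J j) = c j
    · rw [if_pos hJ, if_pos hJ, if_pos (fun x : {x // x ≠ a ∧ x ≠ b} => hJ x.1), smul_smul,
        Fin.prod_univ_succ]
      rfl
    · rw [if_neg hJ, if_neg hJ]
  | zero =>
    convert Submodule.zero_mem _ using 1
    funext J
    simp
  | add x y _ _ hx hy =>
    convert Submodule.add_mem _ hx hy using 1
    funext J
    simp only [Pi.add_apply, smul_add]
    split_ifs <;> simp
  | smul r x _ hx =>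
    convert Submodule.smul_mem _ r hx using 1
    funext J
    simp only [Pi.smul_apply]
    split_ifs
    · rw [smul_comm]
    · simp

end

include hs hQb hQs hQR in
/-- **The first fundamental theorem** for a product of orthogonal and symplectic Lie algebras. -/
theorem fft [CharZero K] (N : ℕ) : ∀ (S : Type) [Fintype S] [DecidableEq S] (c : S → ι)
    (f : (S → B) → M), Fintype.card S = N → Sup κ c f → Inv κ Q (fun i => ((s i : ℤ) : K)) f →
    (∀ i, s i = 1 → (univ.filter fun j => c j = i).card < (blk κ i).card) → f ∈ Gen κ Q c := by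
  classical
  induction N using Nat.strong_induction_on with
  | _ N ih =>
    intro S _ _ c f hN hsup hinv hcount
    rcases isEmpty_or_nonempty S with hS | ⟨⟨a0⟩⟩
    · refine Submodule.subset_span ⟨0, Equiv.equivOfIsEmpty _ _, f (fun j => (hS.false j).elim), ?_⟩
      funext J
      unfold gen
      rw [if_pos (fun j => (hS.false j).elim), Finset.univ_eq_empty, Finset.prod_empty, one_smul]
      congr 1
      funext j
      exact (hS.false j).elim
    · set i := c a0 with hi
      refine alt_mem (K := K) (κ := κ) (c := c) (i := i) (Gen κ Q c)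
        (fun a b ha hb f hf => rho_Gen (c_swap ha hb) hf) (blk κ i).card rfl
        (univ.filter (c · = i)) rfl (s i) ?_ ((blk κ i).card + 1) {a0} ?_ ⟨a0, by simp⟩ ?_ f hsup
        ?_ ?_
      · rcases hs i with h | h
        · exact Or.inr ⟨h, hcount i h⟩
        · exact Or.inl h
      · intro x hx
        rw [Finset.mem_singleton] at hx
        rw [hx]
        simp [hi]
      · rw [Finset.card_singleton]
        omega
      · intro a ha
        have hai : c a = i := (Finset.mem_filter.1 ha).2
        have hcon : ∀ b ∈ (univ.filter fun j => c j = i).erase a,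
            con κ R i a b f ∈ Gen κ Q (fun x : {x // x ≠ a ∧ x ≠ b} => c x.1) := by
          intro b hb
          rw [Finset.mem_erase] at hb
          have hab : a ≠ b := Ne.symm hb.1
          refine ih (Fintype.card {x // x ≠ a ∧ x ≠ b}) ?_ _ _ _ rfl (sup_con hsup R)
            (inv_con hs hQb hQs hQR hinv hab) ?_
          · rw [← hN]
            exact Fintype.card_subtype_lt (x := a) (fun h => h.1 rfl)
          · intro i' hi'
            refine lt_of_le_of_lt ?_ (hcount i' hi')
            refine Finset.card_le_card_of_injOn (fun x => x.1) ?_ ?_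
            · intro x hx
              simp only [Finset.coe_filter, Finset.mem_univ, true_and, Set.mem_ofPred_eq] at hx ⊢
              exact hx
            · intro x _ y _ h
              exact Subtype.ext h
        have hsum : (s i : K) • ∑ b ∈ (univ.filter fun j => c j = i).erase a,
            (fun J : S → B => if ∀ j, κ (J j) = c j then
              Q (J a) (J b) • con κ R i a b f (fun x => J x.1) else 0) ∈ Gen κ Q c := by
          refine Submodule.smul_mem _ _ (Submodule.sum_mem _ fun b hb => ?_)
          exact mul_Gen κ Q c (Ne.symm (Finset.mem_erase.1 hb).1) (hcon b hb)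
        convert hsum using 1
        funext J
        rw [Pi.add_apply, Pi.smul_apply, Finset.sum_apply, Pi.smul_apply, Finset.sum_apply]
        by_cases hJ : ∀ j, κ (J j) = c j
        · simp only [if_pos hJ]
          exact cas hs hQb hQR hinv hJ hai
        · simp only [if_neg hJ, Finset.sum_const_zero, smul_zero]
          rw [hsup J hJ, smul_zero, zero_add]
          refine Finset.sum_eq_zero fun b hb => ?_
          rw [Finset.mem_erase, Finset.mem_filter] at hb
          exact Sup_rho (K := K) (c_swap hai hb.2.2) hsup J hJ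
      · intro a ha b hb hab
        rw [Finset.mem_singleton] at ha hb
        exact absurd (ha.trans hb.symm) hab

end Pool.Agent.TH125.Nod
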