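import Mathlib

/-!
# The first fundamental theorem for products of orthogonal and symplectic Lie algebras

Forms on `⊕ V_i` with values in a vector space `M`, invariant under the Lie algebras of the forms of
the blocks `V_i` (symmetric or alternating), are combinations of products of the forms on pairs of
variables, if in the case of symmetric forms there are fewer variables of this block than the
dimension of the block.
-/

set_option linter.unusedSectionVars false

open Finset Function

namespace Pool.Agent.TH125.Nod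

universe u v

variable {K : Type u} [Field K] {B : Type} [Fintype B] [DecidableEq B] {ι : Type} [DecidableEq ι]
  {M : Type v} [AddCommGroup M] [Module K M]

/-- The form is killed by the operators `x ↦ Q (v, x) u - s Q (u, x) v`. -/
def Inv (κ : B → ι) (Q : Matrix B B K) (s : ι → K) {S : Type} [Fintype S] [DecidableEq S]
    (f : (S → B) → M) : Prop :=
  ∀ u v, κ u = κ v → ∀ J : S → B,
    ∑ j, (Q v (J j) • f (update J j u) - (s (κ u) * Q u (J j)) • f (update J j v)) = 0

/-- The form is supported on the pattern `c`. -/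
def Sup (κ : B → ι) {S : Type} (c : S → ι) (f : (S → B) → M) : Prop :=
  ∀ J : S → B, ¬ (∀ j, κ (J j) = c j) → f J = 0

open Classical in
/-- the generators -/
noncomputable def gen (κ : B → ι) (Q : Matrix B B K) {S : Type} (c : S → ι) {m : ℕ}
    (e : Fin m × Fin 2 ≃ S) (w : M) : (S → B) → M :=
  fun J => if ∀ j, κ (J j) = c j then (∏ l, Q (J (e (l, 0))) (J (e (l, 1)))) • w else 0

/-- the span of products -/
noncomputable def Gen (κ : B → ι) (Q : Matrix B B K) {S : Type} (c : S → ι) :
    Submodule K ((S → B) → M) :=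
  Submodule.span K {g | ∃ (m : ℕ) (e : Fin m × Fin 2 ≃ S) (w : M), g = gen κ Q c e w}

section perm
variable {S : Type} [DecidableEq S]

/-- permutation of the variables -/
def rho (σ : Equiv.Perm S) : ((S → B) → M) →ₗ[K] ((S → B) → M) where
  toFun f := fun J => f (fun j => J (σ j))
  map_add' _ _ := rfl
  map_smul' _ _ := rfl

theorem rho_mul (σ τ : Equiv.Perm S) (f : (S → B) → M) :
    rho (K := K) (σ * τ) f = rho (K := K) σ (rho (K := K) τ f) := rfl

theorem rho_one (f : (S → B) → M) : rho (K := K) (1 : Equiv.Perm S) f = f := rfl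

theorem rho_gen {κ : B → ι} {Q : Matrix B B K} {c : S → ι} {σ : Equiv.Perm S}
    (hσ : ∀ j, c (σ j) = c j) {m : ℕ} (e : Fin m × Fin 2 ≃ S) (w : M) :
    rho (K := K) σ (gen κ Q c e w) = gen κ Q c (e.trans σ) w := by
  funext J
  show gen κ Q c e w (fun j => J (σ j)) = _
  unfold gen
  have h : (∀ j, κ (J (σ j)) = c j) ↔ ∀ j, κ (J j) = c j := by
    constructor
    · intro h j
      have := h (σ.symm j)
      rw [Equiv.apply_symm_apply] at this
      rw [this, ← hσ (σ.symm j), Equiv.apply_symm_apply]
    · intro h j
      rw [h (σ j), hσ]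
  by_cases hJ : ∀ j, κ (J j) = c j
  · rw [if_pos hJ, if_pos (h.2 hJ)]
    rfl
  · rw [if_neg hJ, if_neg (fun h' => hJ (h.1 h'))]

theorem rho_Gen {κ : B → ι} {Q : Matrix B B K} {c : S → ι} {σ : Equiv.Perm S}
    (hσ : ∀ j, c (σ j) = c j) {f : (S → B) → M} (hf : f ∈ Gen κ Q c) :
    rho (K := K) σ f ∈ Gen κ Q c := by
  unfold Gen at hf ⊢
  induction hf using Submodule.span_induction with
  | mem x hx =>
    obtain ⟨m, e, w, rfl⟩ := hx
    rw [rho_gen hσ]
    exact Submodule.subset_span ⟨m, _, w, rfl⟩
  | zero => rw [map_zero]; exact Submodule.zero_mem _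
  | add x y _ _ hx hy => rw [map_add]; exact Submodule.add_mem _ hx hy
  | smul a x _ hx => rw [map_smul]; exact Submodule.smul_mem _ a hx

theorem Sup_rho {κ : B → ι} {c : S → ι} {σ : Equiv.Perm S} (hσ : ∀ j, c (σ j) = c j)
    {f : (S → B) → M} (hf : Sup κ c f) : Sup κ c (rho (K := K) σ f) := by
  intro J hJ
  show f (fun j => J (σ j)) = 0
  apply hf
  intro h
  apply hJ
  intro j
  have := h (σ.symm j)
  rw [Equiv.apply_symm_apply] at this
  rw [this, ← hσ (σ.symm j), Equiv.apply_symm_apply]

end perm

section alt
variable {S : Type} [Fintype S] [DecidableEq S] {κ : B → ι} {Q : Matrix B B K} {c : S → ι}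
  {i : ι} [CharZero K]

/-- swap of two variables -/
abbrev sw (a b : S) (f : (S → B) → M) : (S → B) → M := rho (K := K) (Equiv.swap a b) f

theorem c_swap {a b : S} (ha : c a = i) (hb : c b = i) (j : S) : c (Equiv.swap a b j) = c j := by
  by_cases h1 : j = a
  · rw [h1, Equiv.swap_apply_left, ha, hb]
  by_cases h2 : j = b
  · rw [h2, Equiv.swap_apply_right, ha, hb]
  rw [Equiv.swap_apply_of_ne_of_ne h1 h2]

/-- too many alternating variables -/
theorem pigeon (T : Submodule K ((S → B) → M))
    (hT : ∀ a b, c a = i → c b = i → ∀ f ∈ T, sw (K := K) a b f ∈ T)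
    {A : Finset S} (hA : ∀ a ∈ A, c a = i) (hcard : (univ.filter fun b => κ b = i).card < A.card)
    {w : (S → B) → M} (hw : Sup κ c w)
    (halt : ∀ a ∈ A, ∀ b ∈ A, a ≠ b → sw (K := K) a b w + w ∈ T) : w ∈ T := by
  classical
  have key : ∀ σ : Equiv.Perm {x // x ∈ A},
      rho (K := K) (Equiv.Perm.ofSubtype σ) w - ((Equiv.Perm.sign σ : ℤ) : K) • w ∈ T := by
    intro σ
    induction σ using Equiv.Perm.swap_induction_on with
    | one => simp [rho_one]
    | swap_mul τ x y hxy hτ =>
      rw [map_mul, rho_mul, Equiv.Perm.sign_mul, Equiv.Perm.sign_swap hxy,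
        Equiv.Perm.ofSubtype_swap_eq]
      have hne : (x : S) ≠ y := fun h => hxy (Subtype.ext h)
      have h1 := hT x y (hA _ x.2) (hA _ y.2) _ hτ
      have h2 := halt x x.2 y y.2 hne
      have h3 := T.smul_mem ((Equiv.Perm.sign τ : ℤ) : K) h2
      have h4 := T.add_mem h1 h3
      convert h4 using 1
      simp only [sw, map_sub, map_smul, smul_add]
      push_cast
      module
  have hsum : ∑ σ : Equiv.Perm {x // x ∈ A}, ((Equiv.Perm.sign σ : ℤ) : K) •
      rho (K := K) (Equiv.Perm.ofSubtype σ) w = 0 := by
    funext J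
    rw [Finset.sum_apply]
    simp only [Pi.smul_apply, Pi.zero_apply]
    by_cases hJ : ∀ j, κ (J j) = c j
    · obtain ⟨x, hx, y, hy, hxy, hJxy⟩ := Finset.exists_ne_map_eq_of_card_lt_of_maps_to hcard
        (f := J) (fun a ha => by
          simp only [Finset.coe_filter, Finset.mem_univ, true_and, Set.mem_ofPred_eq]
          rw [hJ a, hA a ha])
      refine Finset.sum_involution (fun σ _ => Equiv.swap ⟨x, hx⟩ ⟨y, hy⟩ * σ) ?_ ?_ ?_ ?_
      · intro σ _
        have hs : Equiv.Perm.sign (Equiv.swap (⟨x, hx⟩ : {x // x ∈ A}) ⟨y, hy⟩) = -1 :=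
          Equiv.Perm.sign_swap (fun h => hxy (congrArg Subtype.val h))
        have h0 : rho (K := K) (Equiv.Perm.ofSubtype (Equiv.swap ⟨x, hx⟩ ⟨y, hy⟩ * σ)) w J =
            rho (K := K) (Equiv.Perm.ofSubtype σ) w J := by
          rw [map_mul, rho_mul, Equiv.Perm.ofSubtype_swap_eq]
          show rho (K := K) (Equiv.Perm.ofSubtype σ) w (fun j => J (Equiv.swap x y j)) = _
          have hJ' : (fun j => J (Equiv.swap x y j)) = J := by
            funext j
            by_cases h1 : j = x
            · rw [h1, Equiv.swap_apply_left, hJxy]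
            by_cases h2 : j = y
            · rw [h2, Equiv.swap_apply_right, hJxy]
            rw [Equiv.swap_apply_of_ne_of_ne h1 h2]
          rw [hJ']
        rw [h0, Equiv.Perm.sign_mul, hs]
        push_cast
        module
      · intro σ _ _ h
        have h1 : Equiv.swap (⟨x, hx⟩ : {x // x ∈ A}) ⟨y, hy⟩ = 1 := by
          rwa [mul_eq_right] at h
        rw [Equiv.Perm.one_def, Equiv.swap_eq_refl_iff] at h1
        exact hxy (congrArg Subtype.val h1)
      · intro σ _
        exact Finset.mem_univ _
      · intro σ _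
        rw [← mul_assoc, Equiv.swap_mul_self, one_mul]
    · refine Finset.sum_eq_zero fun σ _ => ?_
      have hσ : ∀ j, c (Equiv.Perm.ofSubtype σ j) = c j := by
        intro j
        by_cases hj : j ∈ A
        · rw [Equiv.Perm.ofSubtype_apply_of_mem _ hj, hA _ (σ ⟨j, hj⟩).2, hA j hj]
        · rw [Equiv.Perm.ofSubtype_apply_of_not_mem _ hj]
      rw [Sup_rho (K := K) hσ hw J hJ, smul_zero]
  have hfac : ∑ σ : Equiv.Perm {x // x ∈ A}, (((Equiv.Perm.sign σ : ℤ) : K) •
      (rho (K := K) (Equiv.Perm.ofSubtype σ) w - ((Equiv.Perm.sign σ : ℤ) : K) • w)) ∈ T :=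
    T.sum_mem fun σ _ => T.smul_mem _ (key σ)
  simp only [smul_sub, Finset.sum_sub_distrib, hsum, zero_sub, smul_smul] at hfac
  have hsq : ∀ σ : Equiv.Perm {x // x ∈ A},
      ((Equiv.Perm.sign σ : ℤ) : K) * ((Equiv.Perm.sign σ : ℤ) : K) = 1 := by
    intro σ
    rcases Int.units_eq_one_or (Equiv.Perm.sign σ) with h | h <;> rw [h] <;> norm_num
  simp only [hsq, one_smul, Finset.sum_const, ← Nat.cast_smul_eq_nsmul K] at hfac
  rw [Submodule.neg_mem_iff, Submodule.smul_mem_iff] at hfac
  · exact hfac
  · rw [Finset.card_univ, Fintype.card_perm]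
    exact_mod_cast Nat.factorial_ne_zero _

/-- reindexing the Jucys-Murphy sum -/
theorem jm_rho (A : Finset S) (σ : Equiv.Perm S) (hσ : ∀ x, σ x ∈ A ↔ x ∈ A) (a : S)
    (w : (S → B) → M) :
    ∑ b ∈ A.erase a, sw (K := K) a b (rho (K := K) σ w) =
      rho (K := K) σ (∑ b ∈ A.erase (σ⁻¹ a), sw (K := K) (σ⁻¹ a) b w) := by
  rw [map_sum]
  refine Finset.sum_bij (fun b _ => σ⁻¹ b) ?_ ?_ ?_ ?_
  · intro b hb
    rw [Finset.mem_erase] at hb ⊢
    refine ⟨fun h => hb.1 (σ⁻¹.injective h), ?_⟩
    rw [← hσ, ← Equiv.Perm.mul_apply, mul_inv_cancel]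
    exact hb.2
  · intro b _ b' _ h
    exact σ⁻¹.injective h
  · intro b hb
    rw [Finset.mem_erase] at hb
    refine ⟨σ b, ?_, by simp⟩
    rw [Finset.mem_erase]
    refine ⟨fun h => hb.1 ?_, (hσ b).2 hb.2⟩
    rw [← h]
    simp
  · intro b _
    show rho (K := K) (Equiv.swap a b) (rho (K := K) σ w) =
      rho (K := K) σ (rho (K := K) (Equiv.swap (σ⁻¹ a) (σ⁻¹ b)) w)
    rw [← rho_mul, ← rho_mul, Equiv.swap_mul_eq_mul_swap]

/-- The induction on the number of alternating variables. -/
theorem alt_mem (T : Submodule K ((S → B) → M))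
    (hT : ∀ a b, c a = i → c b = i → ∀ f ∈ T, sw (K := K) a b f ∈ T) (n : ℕ)
    (hn : (univ.filter fun b => κ b = i).card = n) (A : Finset S) (hA : A = univ.filter (c · = i))
    (ε : ℤ) (hε : (ε = -1) ∨ (ε = 1 ∧ A.card < n)) (d : ℕ) :
    ∀ A' ⊆ A, A'.Nonempty → n + 1 ≤ A'.card + d → ∀ w : (S → B) → M, Sup κ c w →
      (∀ a ∈ A, (((n : ℤ) - ε : ℤ) : K) • w + ∑ b ∈ A.erase a, sw (K := K) a b w ∈ T) →
      (∀ a ∈ A', ∀ b ∈ A', a ≠ b → sw (K := K) a b w + w ∈ T) → w ∈ T := by
  have hAi : ∀ a ∈ A, c a = i := fun a ha => by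
    rw [hA, Finset.mem_filter] at ha
    exact ha.2
  have hq : ∀ a ∈ A, ∀ b ∈ A, ∀ x y : (S → B) → M, T.mkQ x = T.mkQ y →
      T.mkQ (sw (K := K) a b x) = T.mkQ (sw (K := K) a b y) := by
    intro a ha b hb x y hxy
    rw [Submodule.mkQ_apply, Submodule.mkQ_apply, Submodule.Quotient.eq] at hxy ⊢
    have := hT a b (hAi a ha) (hAi b hb) _ hxy
    rwa [sw, map_sub] at this
  have hq' : ∀ x y : (S → B) → M, x + y ∈ T ↔ T.mkQ x = - T.mkQ y := by
    intro x y
    rw [← map_neg, Submodule.mkQ_apply, Submodule.mkQ_apply, Submodule.Quotient.eq, sub_neg_eq_add]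
  induction d with
  | zero =>
    intro A' hA' _ hcard w hw _ halt
    exact pigeon T hT (fun a ha => hAi a (hA' ha)) (by omega) hw halt
  | succ d ih =>
    intro A' hA' hne hcard w hw hJ halt
    by_cases hlt : n + 1 ≤ A'.card
    · exact pigeon T hT (fun a ha => hAi a (hA' ha)) (by omega) hw halt
    have hlt' : A'.card < n + 1 := not_le.1 hlt
    -- the alternating sum over one more variable
    have hstep : ∀ j ∈ A \ A', w - ∑ a ∈ A', sw (K := K) a j w ∈ T := by
      intro j hj
      rw [Finset.mem_sdiff] at hj
      have hji := hAi j hj.1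
      have hswA : ∀ a ∈ A', ∀ x, Equiv.swap a j x ∈ A ↔ x ∈ A := by
        intro a ha x
        by_cases h1 : x = a
        · rw [h1, Equiv.swap_apply_left]
          exact ⟨fun _ => hA' ha, fun _ => hj.1⟩
        by_cases h2 : x = j
        · rw [h2, Equiv.swap_apply_right]
          exact ⟨fun _ => hj.1, fun _ => hA' ha⟩
        rw [Equiv.swap_apply_of_ne_of_ne h1 h2]
      refine ih (insert j A') ?_ ⟨j, Finset.mem_insert_self _ _⟩ ?_ _ ?_ ?_ ?_
      · intro x hx
        rw [Finset.mem_insert] at hx
        rcases hx with rfl | hx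
        · exact hj.1
        · exact hA' hx
      · rw [Finset.card_insert_of_notMem hj.2]
        omega
      · intro J hJ'
        rw [Pi.sub_apply, Finset.sum_apply, hw J hJ', Finset.sum_eq_zero, sub_zero]
        intro a ha
        exact Sup_rho (K := K) (c_swap (hAi a (hA' ha)) hji) hw J hJ'
      · intro a ha
        have h1 : ∀ l ∈ A', (((n : ℤ) - ε : ℤ) : K) • sw (K := K) l j w +
            ∑ b ∈ A.erase a, sw (K := K) a b (sw (K := K) l j w) ∈ T := by
          intro l hl
          have h2 := jm_rho (K := K) A (Equiv.swap l j) (hswA l hl) a w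
          rw [h2, sw, ← map_smul, ← map_add]
          apply hT l j (hAi l (hA' hl)) hji
          apply hJ
          rw [← hswA l hl, ← Equiv.Perm.mul_apply, mul_inv_cancel]
          exact ha
        have h3 := T.sub_mem (hJ a ha) (T.sum_mem h1)
        convert h3 using 1
        simp only [sw, map_sub, map_sum, Finset.sum_sub_distrib, Finset.sum_add_distrib, smul_sub,
          Finset.smul_sum]
        rw [Finset.sum_comm (s := A.erase a) (t := A')]
        abel
      · -- alternating
        have hsym : ∀ a ∈ A', sw (K := K) a j (w - ∑ l ∈ A', sw (K := K) l j w) +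
            (w - ∑ l ∈ A', sw (K := K) l j w) ∈ T := by
          intro a ha
          rw [hq']
          simp only [map_sub, map_sum]
          rw [← Finset.add_sum_erase A' _ ha, ← Finset.add_sum_erase A' (fun l =>
            T.mkQ (sw (K := K) l j w)) ha]
          have h1 : sw (K := K) a j (sw (K := K) a j w) = w := by
            show rho (K := K) _ (rho (K := K) _ w) = w
            rw [← rho_mul, Equiv.swap_mul_self, rho_one]
          have h2 : ∀ l ∈ A'.erase a, T.mkQ (sw (K := K) a j (sw (K := K) l j w)) =
              - T.mkQ (sw (K := K) l j w) := by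
            intro l hl
            rw [Finset.mem_erase] at hl
            have h3 : sw (K := K) a j (sw (K := K) l j w) =
                sw (K := K) l j (sw (K := K) a l w) := by
              show rho (K := K) _ (rho (K := K) _ w) = rho (K := K) _ (rho (K := K) _ w)
              rw [← rho_mul, ← rho_mul, Equiv.mul_swap_eq_swap_mul (Equiv.swap l j) a l,
                Equiv.swap_apply_of_ne_of_ne (x := a) (Ne.symm hl.1)
                  (fun h : a = j => hj.2 (h ▸ ha)),
                Equiv.swap_apply_left]
            have h4 : T.mkQ (sw (K := K) a l w) = T.mkQ (-w) := by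
              rw [map_neg, ← hq']
              exact halt a ha l hl.2 (Ne.symm hl.1)
            rw [h3, hq l (hA' hl.2) j hj.1 _ _ h4]
            simp only [sw, map_neg]
          simp only [sw] at h1 h2 ⊢
          rw [h1, Finset.sum_congr rfl h2, Finset.sum_neg_distrib]
          abel
        have hin : ∀ a ∈ A', ∀ b ∈ A', a ≠ b →
            sw (K := K) a b (w - ∑ l ∈ A', sw (K := K) l j w) +
            (w - ∑ l ∈ A', sw (K := K) l j w) ∈ T := by
          intro a ha b hb hab
          rw [hq']
          have h0 : T.mkQ (sw (K := K) a b w) = T.mkQ (-w) := by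
            rw [map_neg, ← hq']
            exact halt a ha b hb hab
          have h1 : ∀ l ∈ A', T.mkQ (sw (K := K) a b (sw (K := K) l j w)) =
              - T.mkQ (sw (K := K) (Equiv.swap a b l) j w) := by
            intro l hl
            have h3 : sw (K := K) a b (sw (K := K) l j w) =
                sw (K := K) (Equiv.swap a b l) j (sw (K := K) a b w) := by
              show rho (K := K) _ (rho (K := K) _ w) = rho (K := K) _ (rho (K := K) _ w)
              rw [← rho_mul, ← rho_mul, Equiv.mul_swap_eq_swap_mul,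
                Equiv.swap_apply_of_ne_of_ne (x := j) (fun h => hj.2 (h ▸ ha))
                  (fun h => hj.2 (h ▸ hb))]
            have hl' : Equiv.swap a b l ∈ A' := by
              by_cases e1 : l = a
              · rw [e1, Equiv.swap_apply_left]
                exact hb
              by_cases e2 : l = b
              · rw [e2, Equiv.swap_apply_right]
                exact ha
              rw [Equiv.swap_apply_of_ne_of_ne e1 e2]
              exact hl
            rw [h3, hq _ (hA' hl') j hj.1 _ _ h0]
            simp only [sw, map_neg]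
          have h2 : ∑ l ∈ A', T.mkQ (sw (K := K) (Equiv.swap a b l) j w) =
              ∑ l ∈ A', T.mkQ (sw (K := K) l j w) := by
            refine Finset.sum_bij (fun l _ => Equiv.swap a b l) ?_ ?_ ?_ ?_
            · intro l hl
              show Equiv.swap a b l ∈ A'
              by_cases e1 : l = a
              · rw [e1, Equiv.swap_apply_left]
                exact hb
              by_cases e2 : l = b
              · rw [e2, Equiv.swap_apply_right]
                exact ha
              rw [Equiv.swap_apply_of_ne_of_ne e1 e2]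
              exact hl
            · intro l _ l' _ h
              exact (Equiv.swap a b).injective h
            · intro l hl
              refine ⟨Equiv.swap a b l, ?_, Equiv.swap_apply_self _ _ _⟩
              by_cases e1 : l = a
              · rw [e1, Equiv.swap_apply_left]
                exact hb
              by_cases e2 : l = b
              · rw [e2, Equiv.swap_apply_right]
                exact ha
              rw [Equiv.swap_apply_of_ne_of_ne e1 e2]
              exact hl
            · intro l _
              rfl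
          simp only [map_sub, map_sum]
          simp only [sw] at h0 h1 h2 ⊢
          rw [h0, Finset.sum_congr rfl h1, Finset.sum_neg_distrib, h2, map_neg]
          abel
        intro a ha b hb hab
        rw [Finset.mem_insert] at ha hb
        rcases ha with rfl | ha
        · rcases hb with rfl | hb
          · exact absurd rfl hab
          · have := hsym b hb
            rwa [sw, Equiv.swap_comm] at this
        · rcases hb with rfl | hb
          · exact hsym a ha
          · exact hin a ha b hb hab
    -- the final count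
    have hsumT := T.sum_mem (fun a (ha : a ∈ A') => hJ a (hA' ha))
    rw [← Submodule.ker_mkQ T, LinearMap.mem_ker, map_sum] at hsumT
    have h1 : ∀ a ∈ A', T.mkQ ((((n : ℤ) - ε : ℤ) : K) • w + ∑ b ∈ A.erase a, sw (K := K) a b w) =
        (((n : ℤ) - ε : ℤ) : K) • T.mkQ w - (((A'.card : ℤ) - 1 : ℤ) : K) • T.mkQ w +
          ∑ b ∈ A \ A', T.mkQ (sw (K := K) a b w) := by
      intro a ha
      have hsplit : A.erase a = A'.erase a ∪ (A \ A') := by
        ext x
        simp only [Finset.mem_erase, Finset.mem_union, Finset.mem_sdiff]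
        constructor
        · rintro ⟨h1, h2⟩
          by_cases hx : x ∈ A'
          · exact Or.inl ⟨h1, hx⟩
          · exact Or.inr ⟨h2, hx⟩
        · rintro (⟨h1, h2⟩ | ⟨h1, h2⟩)
          · exact ⟨h1, hA' h2⟩
          · exact ⟨fun h => h2 (h ▸ ha), h1⟩
      have hdis : Disjoint (A'.erase a) (A \ A') := by
        rw [Finset.disjoint_left]
        intro x hx hx'
        rw [Finset.mem_erase] at hx
        rw [Finset.mem_sdiff] at hx'
        exact hx'.2 hx.2
      rw [map_add, map_smul, map_sum, hsplit, Finset.sum_union hdis]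
      have h2 : ∀ b ∈ A'.erase a, T.mkQ (sw (K := K) a b w) = - T.mkQ w := by
        intro b hb
        rw [Finset.mem_erase] at hb
        rw [← hq']
        exact halt a ha b hb.2 (Ne.symm hb.1)
      rw [Finset.sum_congr rfl h2, Finset.sum_const, Finset.card_erase_of_mem ha]
      have hpos : 1 ≤ A'.card := Finset.card_pos.2 hne
      have h3 : (((A'.card : ℤ) - 1 : ℤ) : K) = ((A'.card - 1 : ℕ) : K) := by
        rw [Nat.cast_sub hpos]
        push_cast
        ring
      rw [h3, ← Nat.cast_smul_eq_nsmul K]
      module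
    rw [Finset.sum_congr rfl h1, Finset.sum_add_distrib, Finset.sum_const,
      Finset.sum_comm] at hsumT
    have h2 : ∀ j ∈ A \ A', ∑ a ∈ A', T.mkQ (sw (K := K) a j w) = T.mkQ w := by
      intro j hj
      have := hstep j hj
      rw [← Submodule.ker_mkQ T, LinearMap.mem_ker, map_sub, map_sum, sub_eq_zero] at this
      exact this.symm
    rw [Finset.sum_congr rfl h2, Finset.sum_const, ← Nat.cast_smul_eq_nsmul K,
      ← Nat.cast_smul_eq_nsmul K] at hsumT
    have hcc : (A \ A').card + A'.card = A.card := Finset.card_sdiff_add_card_eq_card hA'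
    have hmA : A'.card ≤ A.card := Finset.card_le_card hA'
    have hpos : 1 ≤ A'.card := Finset.card_pos.2 hne
    have h3 : ((((A'.card : ℤ) * ((n : ℤ) - ε - (A'.card - 1)) + (A \ A').card : ℤ)) : K) •
        T.mkQ w = 0 := by
      rw [← hsumT]
      push_cast
      module
    have h4 : (((A'.card : ℤ) * ((n : ℤ) - ε - (A'.card - 1)) + (A \ A').card : ℤ)) ≠ 0 := by
      have h5 : 0 < (n : ℤ) - ε - (A'.card - 1) := by
        rcases hε with h | ⟨h, h'⟩ <;> rw [h] <;> omega
      have h6 : 0 < (A'.card : ℤ) := by omega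
      positivity
    rw [smul_eq_zero, Int.cast_eq_zero] at h3
    rcases h3 with h3 | h3
    · exact absurd h3 h4
    · rwa [← LinearMap.mem_ker, Submodule.ker_mkQ] at h3

end alt

end Pool.Agent.TH125.Nod
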